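import Pool.Agent.W37.SG.Stm

/-!
# Project SG: independence of the monomials
-/

namespace Pool.Agent.W490.SG

open Pool.Agent.W37.SG

theorem mon_eq {p : ℕ} (hp : 1 < p) {i n : ℕ} (h : i < p ^ n) (x : ℕ → ZMod p) :
    mon p i x = ∏ j ∈ Finset.range n, x j ^ (i / p ^ j % p) := by
  have key : ∀ m, i < p ^ m → ∏ j ∈ Finset.range m, x j ^ (i / p ^ j % p) =
      ∏ j ∈ Finset.range (max i n), x j ^ (i / p ^ j % p) ∨ max i n < m := by
    intro m hm
    rcases le_or_gt m (max i n) with h1 | h1
    · left
      refine Finset.prod_subset (Finset.range_mono h1) fun j _ hj => ?_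
      have h2 : m ≤ j := by simpa using hj
      have h3 : i < p ^ j := lt_of_lt_of_le hm (Nat.pow_le_pow_right (by omega) h2)
      rw [Nat.div_eq_of_lt h3, Nat.zero_mod, pow_zero]
    · exact Or.inr h1
  unfold mon
  rcases key i (Nat.lt_pow_self hp) with h1 | h1
  · rcases key n h with h2 | h2
    · rw [h1, h2]
    · exact absurd h2 (not_lt.2 (le_max_right _ _))
  · exact absurd h1 (not_lt.2 (le_max_left _ _))

theorem digits_inj {p : ℕ} (hp : 1 < p) (n : ℕ) : ∀ a b : ℕ, a < p ^ n → b < p ^ n →
    (∀ t < n, a / p ^ t % p = b / p ^ t % p) → a = b := by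
  induction n with
  | zero =>
    intro a b ha hb _
    rw [pow_zero] at ha hb
    omega
  | succ n ih =>
    intro a b ha hb h
    have hp0 : 0 < p := by omega
    have h0 : a % p = b % p := by
      have := h 0 (Nat.succ_pos n)
      simpa using this
    have h1 : a / p = b / p := by
      refine ih _ _ ?_ ?_ fun t ht => ?_
      · rw [pow_succ] at ha
        exact Nat.div_lt_of_lt_mul (by rwa [mul_comm] at ha)
      · rw [pow_succ] at hb
        exact Nat.div_lt_of_lt_mul (by rwa [mul_comm] at hb)
      · have := h (t + 1) (by omega)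
        rw [pow_succ', ← Nat.div_div_eq_div_mul, ← Nat.div_div_eq_div_mul] at this
        exact this
    rw [← Nat.div_add_mod a p, ← Nat.div_add_mod b p, h0, h1]

/-- the exponents of the monomial -/
noncomputable def ex (p n i : ℕ) : Fin n →₀ ℕ :=
  Finsupp.equivFunOnFinite.symm fun t => i / p ^ (t : ℕ) % p

theorem ex_apply (p n i : ℕ) (t : Fin n) : ex p n i t = i / p ^ (t : ℕ) % p := rfl

theorem eval_ex {p : ℕ} (hp : 1 < p) {n i : ℕ} (h : i < p ^ n) (v : Fin n → ZMod p) (c : ZMod p) :
    MvPolynomial.eval v (MvPolynomial.monomial (ex p n i) c) = c * mon p i (ext0 p n v) := by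
  rw [MvPolynomial.eval_monomial, mon_eq hp h, Finsupp.prod_fintype _ _ (fun _ => pow_zero _),
    ← Fin.prod_univ_eq_prod_range (fun j => ext0 p n v j ^ (i / p ^ j % p)) n]
  congr 1
  refine Finset.prod_congr rfl fun t _ => ?_
  rw [ex_apply]
  congr 1
  simp [ext0]

/-- **The monomials are linearly independent.** -/
theorem mon_linearIndependent (p : ℕ) [Fact p.Prime] :
    LinearIndependent (ZMod p) (fun i => mon p i) := by
  classical
  have hp : 1 < p := (Fact.out : p.Prime).one_lt
  rw [linearIndependent_iff']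
  intro s g hg i hi
  set n := s.sup id + 1 with hn
  have hlt : ∀ j ∈ s, j < p ^ n := by
    intro j hj
    have h1 : j ≤ s.sup id := Finset.le_sup (f := id) hj
    exact lt_of_lt_of_le (Nat.lt_pow_self hp) (Nat.pow_le_pow_right (by omega) (by omega))
  set P : MvPolynomial (Fin n) (ZMod p) := ∑ j ∈ s, MvPolynomial.monomial (ex p n j) (g j) with hP
  have h0 : P = 0 := by
    refine MvPolynomial.eq_zero_of_eval_eq_zero _ _ P (fun v => ?_) ?_
    · rw [hP, map_sum, Finset.sum_congr rfl fun j hj => eval_ex hp (hlt j hj) v (g j)]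
      have := congrFun hg (ext0 p n v)
      simpa using this
    · rw [ZMod.card, hP]
      refine Submodule.sum_mem _ fun j _ => ?_
      rw [MvPolynomial.mem_restrictDegree]
      intro e he t
      have h1 : e = ex p n j := by
        have := MvPolynomial.support_monomial_subset he
        simpa using this
      rw [h1, ex_apply]
      have := Nat.mod_lt (j / p ^ (t : ℕ)) (show p > 0 by omega)
      omega
  have h1 := congrArg (MvPolynomial.coeff (ex p n i)) h0
  rw [hP, MvPolynomial.coeff_sum, MvPolynomial.coeff_zero, Finset.sum_eq_single i] at h1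
  · simpa using h1
  · intro j hj hji
    rw [MvPolynomial.coeff_monomial, if_neg]
    intro he
    refine hji (digits_inj hp n j i (hlt j hj) (hlt i hi) fun t ht => ?_)
    have := DFunLike.congr_fun he ⟨t, ht⟩
    simpa [ex_apply] using this
  · intro h
    exact absurd hi h

/-- **SG-D1** -/
theorem main : S_D1 := by
  intro p _ i
  have h := (mon_linearIndependent p).notMem_span_image (s := Set.Iio i) (x := i)
    (by simp)
  unfold U
  have e : {f : Fn p | ∃ j < i, f = mon p j} = (fun j => mon p j) '' Set.Iio i := by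
    ext f
    constructor
    · rintro ⟨j, hj, rfl⟩
      exact ⟨j, hj, rfl⟩
    · rintro ⟨j, hj, rfl⟩
      exact ⟨j, hj, rfl⟩
  rw [e]
  exact h

/-- adding a top digit -/
theorem mon_digit {p : ℕ} (hp : 1 < p) {k e r : ℕ} (hr : r < p ^ k) (he : e < p)
    (x : ℕ → ZMod p) : mon p (e * p ^ k + r) x = x k ^ e * mon p r x := by
  have hpk : 0 < p ^ k := Nat.pow_pos (by omega)
  have h1 : e * p ^ k + r < p ^ (k + 1) := by
    rw [pow_succ]
    nlinarith
  rw [mon_eq hp h1, mon_eq hp hr, Finset.prod_range_succ, mul_comm]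
  have e1 : (e * p ^ k + r) / p ^ k % p = e := by
    rw [mul_comm, Nat.mul_add_div hpk, Nat.div_eq_of_lt hr, add_zero, Nat.mod_eq_of_lt he]
  rw [e1]
  congr 1
  refine Finset.prod_congr rfl fun t ht => ?_
  have ht' : t < k := Finset.mem_range.1 ht
  congr 1
  obtain ⟨m, rfl⟩ : ∃ m, k = t + 1 + m := ⟨k - (t + 1), by omega⟩
  have e2 : e * p ^ (t + 1 + m) + r = p ^ t * (p * (e * p ^ m)) + r := by
    rw [pow_add, pow_succ]; ring
  rw [e2, Nat.mul_add_div (Nat.pow_pos (by omega)), Nat.mul_add_mod]

/-- `mon p 0 = 1` -/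
theorem mon_zero (p : ℕ) (x : ℕ → ZMod p) : mon p 0 x = 1 := by simp [mon]

/-- `mon p (p ^ k)` is the coordinate `k` -/
theorem mon_pow {p : ℕ} (hp : 1 < p) (k : ℕ) (x : ℕ → ZMod p) : mon p (p ^ k) x = x k := by
  have := mon_digit hp (k := k) (e := 1) (r := 0) (Nat.pow_pos (by omega)) hp x
  simpa [mon_zero] using this

end Pool.Agent.W490.SG
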